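import Pool.Agent.K9h51.D2.Fin2

/-!
# Random stirring in the plane: the Poisson-Dirichlet law at polylogarithmic times

`stirExp J t F` (Pool.Agent.Y998.ST.Defs) is the expectation of `F` under random stirring with rates
`J` at time `t`, started at the identity, `nnRate 2 L` are the rates `1` for the nearest neighbours
of the torus `(ℤ / L)^2`.  `cycleFrac g i` (the `(i + 1)`-th largest cycle length divided by the
number of points) and `pdMean f` (the mean of `f` for the Poisson-Dirichlet(1) sequence) are those
of the result `LocalPoissonDirichlet` of `MP_b817cf_pr`.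

Proof.  Marked cycles, determinants and resolvents, as for `PolylogTimes` (`d ≥ 3`), but with new
estimates for the killed kernels: in the plane the Green function diverges logarithmically and the
mean of the short-cycle mass is only `t^(-1+ε)`, so every step has to absorb factors `t^ε`.
-/

set_option autoImplicit false

namespace Pool.Agent.Results.MP_6c3d62_pr.PlanePolylogLaw

open Finset Equiv
open Pool.Agent.Y998.ST (stirExp nnRate)
open Pool.Agent.Results.MP_b817cf_pr.LocalPoissonDirichlet (cycleFrac pdMean)

open Classical in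
/-- Nearest neighbour random stirring (the interchange process) on the two-dimensional torus
`(ℤ / L)^2`, started at the identity.  There is an exponent `m` such that, uniformly over all times
`t ≥ (log L) ^ m`:

(1) the ordered cycle lengths divided by `L ^ 2` converge in law to the Poisson-Dirichlet(1) law as
`L → ∞`;

(2) for every `i` and every `ε < 1 / (i + 1)` the probability that the `(i + 1)`-th largest cycle
has at least `ε L ^ 2` points is bounded below by a positive constant for all large `L`;

(3) for every `η > 0` there is `k` such that the `k` largest cycles contain on average at least the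
fraction `1 - η` of all points, for all large `L`. -/
theorem result : ∃ m : ℕ,
    (∀ (k : ℕ) (f : (Fin k → ℝ) → ℝ), Continuous f → (∃ C, ∀ u, |f u| ≤ C) →
      ∀ η : ℝ, 0 < η → ∃ L₀ : ℕ, ∀ (L : ℕ) [NeZero L], L₀ ≤ L →
        ∀ t : ℝ, (Real.log L) ^ m ≤ t →
        |stirExp (nnRate 2 L) t (fun g => f (fun i => cycleFrac g i)) - pdMean f| ≤ η) ∧
    (∀ (i : ℕ) (ε : ℝ), ε < 1 / ((i : ℝ) + 1) → ∃ c : ℝ, 0 < c ∧ ∃ L₀ : ℕ,
      ∀ (L : ℕ) [NeZero L], L₀ ≤ L → ∀ t : ℝ, (Real.log L) ^ m ≤ t →
      c ≤ stirExp (nnRate 2 L) t (fun g => if ε ≤ cycleFrac g i then 1 else 0)) ∧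
    ∀ η : ℝ, 0 < η → ∃ k L₀ : ℕ, ∀ (L : ℕ) [NeZero L], L₀ ≤ L →
      ∀ t : ℝ, (Real.log L) ^ m ≤ t →
      1 - η ≤ ∑ i ∈ Finset.range k, stirExp (nnRate 2 L) t (fun g => cycleFrac g i) := by
  simp only [Pool.Agent.Results.MP_b817cf_pr.LocalPoissonDirichlet.frac_eq,
    Pool.Agent.Results.MP_b817cf_pr.LocalPoissonDirichlet.pd_eq]
  obtain ⟨m, hm⟩ := Pool.Agent.K9h51.D2.main2
  exact ⟨m, hm, Pool.Agent.K9h51.D2.mac_of 2 m hm⟩

end Pool.Agent.Results.MP_6c3d62_pr.PlanePolylogLaw
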