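import Pool.Agent.K9h51.SH.Fin

/-!
# Nearest neighbour stirring, `d ≥ 3`: the sharp law of the short cycles

For nearest neighbour random stirring on the torus `(ℤ / L)^d`, `d ≥ 3`, at a large time `t`, the cycle
of a point has at most `n` points with probability `(1 + o(1)) (4 π t)^(-d/2) ∑_{j ≤ n} j^(-d/2)`, for
every `n ≤ exp (t ^ c)` (and, for `t ≥ (log L)^m`, every `n ≤ L^d / t`), up to an error
`O(n / L^d)`. These are the cycle lengths of the ideal Bose gas: a cycle of length `j` costs the return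
probability of a random walk to its starting point at time `j t`.
-/

set_option autoImplicit false

namespace Pool.Agent.Results.MP_6c3d62_pr.BoseGasLaw

open Finset Equiv
open Pool.Agent.Y998.ST (stirExp nnRate cycleLen)

/-- The probability that the cycle of `x` has at most `n` points at time `t`. -/
noncomputable def shortProb (d L : ℕ) [NeZero L] (t : ℝ) (n : ℕ) (x : Fin d → ZMod L) : ℝ :=
  stirExp (nnRate d L) t (fun g => if cycleLen g x ≤ n then 1 else 0)

/-- Nearest neighbour random stirring on the torus `(ℤ / L)^d`, `d ≥ 3`, started at the identity.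
There are `c > 0` and `m`, which depend only on `d`, such that for every `ε > 0` there are `C` and `t₀`
with: for all `t ≥ t₀`, all `L`, all `n ≥ 1` with `n t ≤ L^d` and all `x`, if `n ≤ exp (t ^ c)` or
`t ≥ (log L)^m`, the probability that the cycle of `x` has at most `n` points differs from
`(4 π t)^(-d/2) ∑_{j = 1}^n j^(-d/2)` by at most `ε t^(-d/2) + C n / L^d`. -/
theorem result (d : ℕ) (hd : 3 ≤ d) : ∃ (c : ℝ) (m : ℕ), 0 < c ∧
    ∀ ε : ℝ, 0 < ε → ∃ C t₀ : ℝ, ∀ t : ℝ, t₀ ≤ t → ∀ (L : ℕ) [NeZero L] (n : ℕ), 1 ≤ n →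
      (n : ℝ) * t ≤ (L : ℝ) ^ d → ((n : ℝ) ≤ Real.exp (t ^ c) ∨ (Real.log L) ^ m ≤ t) →
      ∀ x : Fin d → ZMod L,
      |shortProb d L t n x -
        (4 * Real.pi * t) ^ (-(d / 2 : ℝ)) * ∑ j ∈ Finset.Icc 1 n, (j : ℝ) ^ (-(d / 2 : ℝ))| ≤
      ε * t ^ (-(d / 2 : ℝ)) + C * (n / (L : ℝ) ^ d) := by
  obtain ⟨c, m, hc, h⟩ := Pool.Agent.K9h51.SH.fin d hd
  refine ⟨c, m, hc, fun ε hε => ?_⟩
  obtain ⟨C, t₀, -, -, h⟩ := h ε hε
  refine ⟨C, t₀, fun t ht L _ n hn hnt hcase x => ?_⟩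
  have h1 := h t ht L n hn hnt hcase x
  have hd0 : (0 : ℝ) < d := by
    have : 0 < d := by omega
    exact_mod_cast this
  have h2 : ∑ j ∈ Finset.Icc 1 n, (j : ℝ) ^ (-(d / 2 : ℝ)) =
      ∑ j ∈ range (n + 1), (j : ℝ) ^ (-(d / 2 : ℝ)) := by
    rw [Finset.range_eq_Ico, Finset.sum_eq_sum_Ico_succ_bot (Nat.succ_pos n)]
    have h3 : (((0 : ℕ) : ℝ)) ^ (-(d / 2 : ℝ)) = 0 := by
      rw [Nat.cast_zero, Real.zero_rpow]
      rw [neg_ne_zero]
      positivity
    rw [h3, zero_add]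
    rfl
  rw [h2]
  exact h1

end Pool.Agent.Results.MP_6c3d62_pr.BoseGasLaw
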