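import Pool.Agent.K9h51.LC.Mac

/-!
# Long cycle conjecture, `d ≥ 3`: infinitely many macroscopic cycles at polylogarithmic times

`stirExp J t F` (Pool.Agent.Y998.ST.Defs) is the expectation of `F` under random stirring with rates
`J` at time `t`, started at the identity, `nnRate d L` are the rates `1` for the nearest neighbours
of the torus `(ℤ / L)^d`.
-/

set_option autoImplicit false

namespace Pool.Agent.Results.MP_6c3d62_pr.ManyMacroscopicCycles

open Finset Equiv
open Pool.Agent.Y998.ST (stirExp nnRate)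

/-- The `(i + 1)`-th largest cycle length (`i = 0` for the largest) divided by the number of points,
and `0` if there are at most `i` cycles. -/
noncomputable def cycleFrac {V : Type} [Fintype V] [DecidableEq V] (g : Perm V) (i : ℕ) : ℝ :=
  sSup {x : ℝ | i + 1 ≤ Multiset.card
    (Multiset.filter (fun c : ℕ => x ≤ (c : ℝ) / Fintype.card V) g.partition.parts)}

open Classical in
/-- Properties (b) and (c) of the long cycle conjecture at times `t ≥ (log L)^m`: for nearest
neighbour random stirring on the torus `(ℤ / L)^d`, `d ≥ 3`, there is an exponent `m` depending only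
on `d` such that, with `p_i` the `(i + 1)`-th largest cycle length divided by `L ^ d`,
for every `i` and every `ε < 1 / (i + 1)` the probability that `p_i ≥ ε` is bounded below by a
positive constant, uniformly over all large `L` and all `t ≥ (log L)^m`; and for every `η > 0` there
is `k` such that the mean of `p_0 + ... + p_{k-1}` is at least `1 - η` for all large `L` and all
`t ≥ (log L)^m`. -/
theorem result (d : ℕ) (hd : 3 ≤ d) : ∃ m : ℕ,
    (∀ (i : ℕ) (ε : ℝ), ε < 1 / ((i : ℝ) + 1) → ∃ c : ℝ, 0 < c ∧ ∃ L₀ : ℕ,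
      ∀ (L : ℕ) [NeZero L], L₀ ≤ L → ∀ t : ℝ, (Real.log L) ^ m ≤ t →
      c ≤ stirExp (nnRate d L) t (fun g => if ε ≤ cycleFrac g i then 1 else 0)) ∧
    ∀ η : ℝ, 0 < η → ∃ k L₀ : ℕ, ∀ (L : ℕ) [NeZero L], L₀ ≤ L →
      ∀ t : ℝ, (Real.log L) ^ m ≤ t →
      1 - η ≤ ∑ i ∈ Finset.range k, stirExp (nnRate d L) t (fun g => cycleFrac g i) := by
  have e : ∀ (L : ℕ) [NeZero L] (g : Perm (Fin d → ZMod L)) (i : ℕ), cycleFrac g i =
      Pool.Agent.TH268.PD.top (Pool.Agent.Y998.LP.bfrac Finset.univ g) i :=
    fun L _ g i => Pool.Agent.Results.MP_b817cf_pr.LocalPoissonDirichlet.frac_eq g i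
  simp only [e]
  exact Pool.Agent.K9h51.LC.mac d hd

end Pool.Agent.Results.MP_6c3d62_pr.ManyMacroscopicCycles
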