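import Pool.Agent.K9h51.D2.Tls2

/-!
# Stirring in the plane: cycles are long

Random stirring on the two-dimensional torus `(ℤ / L)^2` at time `t`. For every `ε > 0` the cycle of
a point has at most `n` points with probability at most `C t ^ ε (1 / t + n / L^2)`, for every large
`t`, all `L` and all `n ≤ exp (t ^ c)` with `n t ≤ L^2`; for `t ≥ (log L)^m` for all `n ≤ L^2 / t`. The
bound is sharp up to the factor `t ^ ε`: `1 / t` is the order of the probability of a fixed point.
-/

set_option autoImplicit false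

namespace Pool.Agent.Results.MP_6c3d62_pr.PlaneLongCycles

open Finset Equiv
open Pool.Agent.Y998.ST (stirExp nnRate cycleLen)

/-- The probability that the cycle of `x` has at most `n` points at time `t`. -/
noncomputable def shortProb (L : ℕ) [NeZero L] (t : ℝ) (n : ℕ) (x : Fin 2 → ZMod L) : ℝ :=
  stirExp (nnRate 2 L) t (fun g => if cycleLen g x ≤ n then 1 else 0)

/-- The expected fraction of the vertices which lie in cycles with at most `n` points. -/
noncomputable def shortFrac (L : ℕ) [NeZero L] (t : ℝ) (n : ℕ) : ℝ :=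
  stirExp (nnRate 2 L) t (fun g =>
    (∑ x : Fin 2 → ZMod L, if cycleLen g x ≤ n then (1 : ℝ) else 0) / (L : ℝ) ^ 2)

/-- Random stirring on the two-dimensional torus `(ℤ / L)^2`, started at the identity. For every
`ε > 0` there are constants `C`, `c > 0`, `t₀` and `m` such that:

(1) for all `t ≥ t₀`, all `L` and all `n ≥ 1` with `n t ≤ L^2`, if `n ≤ exp (t ^ c)` or
`t ≥ (log L)^m`, the cycle of any point has at most `n` points with probability at most
`C t ^ ε (1 / t + n / L^2)`, and the expected fraction of the vertices in cycles with at most `n`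
points satisfies the same bound;

(2) for all `L ≥ 3`, `1 ≤ t ≤ 2 L ^ 2` and all `n ≥ 1` this probability is at least `c / t`. -/
theorem result (ε : ℝ) (hε : 0 < ε) : ∃ (C c t₀ : ℝ) (m : ℕ), 0 < c ∧
    (∀ t : ℝ, t₀ ≤ t → ∀ (L : ℕ) [NeZero L] (n : ℕ), 1 ≤ n → (n : ℝ) * t ≤ (L : ℝ) ^ 2 →
      ((n : ℝ) ≤ Real.exp (t ^ c) ∨ (Real.log L) ^ m ≤ t) →
      (∀ x : Fin 2 → ZMod L, shortProb L t n x ≤ C * t ^ ε * (1 / t + n / (L : ℝ) ^ 2)) ∧
      shortFrac L t n ≤ C * t ^ ε * (1 / t + n / (L : ℝ) ^ 2)) ∧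
    ∀ (L : ℕ) [NeZero L], 3 ≤ L → ∀ t : ℝ, 1 ≤ t → t ≤ 2 * (L : ℝ) ^ 2 → ∀ n : ℕ, 1 ≤ n →
      ∀ x : Fin 2 → ZMod L, c / t ≤ shortProb L t n x := by
  obtain ⟨C, c, t₀, m, hc, ht₀, hC, h1⟩ := Pool.Agent.K9h51.D2.tail2 ε hε
  obtain ⟨c', hc', h2⟩ := Q292.LC.tail_low Q292.LC.all_hkl 2 (by omega)
  refine ⟨C, min c c', t₀, m, lt_min hc hc', ?_, ?_⟩
  · intro t ht L _ n hn hnt hcase
    have key : ∀ x : Fin 2 → ZMod L, shortProb L t n x ≤ C * t ^ ε * (1 / t + n / (L : ℝ) ^ 2) := by
      intro x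
      unfold shortProb
      simp only [Q292.LC.cycleLen_eq]
      refine h1 t ht L n hn hnt ?_ x
      rcases hcase with h | h
      · left
        refine h.trans (Real.exp_le_exp.2 ?_)
        exact Real.rpow_le_rpow_of_exponent_le (ht₀.trans ht) (min_le_left _ _)
      · right
        exact h
    refine ⟨key, ?_⟩
    have hL0 : (0 : ℝ) < L := by exact_mod_cast Nat.pos_of_ne_zero (NeZero.ne L)
    have e1 : shortFrac L t n = (∑ x : Fin 2 → ZMod L, shortProb L t n x) / (L : ℝ) ^ 2 := by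
      unfold shortFrac shortProb
      have e2 : (fun g : Perm (Fin 2 → ZMod L) =>
          (∑ x : Fin 2 → ZMod L, if cycleLen g x ≤ n then (1 : ℝ) else 0) / (L : ℝ) ^ 2) =
          fun g => (1 / (L : ℝ) ^ 2) *
            ∑ x : Fin 2 → ZMod L, if cycleLen g x ≤ n then (1 : ℝ) else 0 := by
        funext g
        ring
      rw [e2, Pool.Agent.Q297.LC.stir_smul, Pool.Agent.Y998.ST.exp_sum]
      ring
    rw [e1, div_le_iff₀ (by positivity)]
    calc ∑ x : Fin 2 → ZMod L, shortProb L t n x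
        ≤ ∑ x : Fin 2 → ZMod L, C * t ^ ε * (1 / t + n / (L : ℝ) ^ 2) :=
          Finset.sum_le_sum fun x _ => key x
      _ = C * t ^ ε * (1 / t + n / (L : ℝ) ^ 2) * (L : ℝ) ^ 2 := by
          rw [Finset.sum_const, Finset.card_univ, nsmul_eq_mul, Fintype.card_fun,
            Fintype.card_fin, ZMod.card]
          push_cast
          ring
  · intro L _ hL t ht htL n hn x
    have h3 := h2 L hL t ht htL n hn x
    have hpow : t ^ (-(((2 : ℕ) : ℝ) / 2)) = 1 / t := by
      have : (-(((2 : ℕ) : ℝ) / 2)) = -1 := by norm_num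
      rw [this, Real.rpow_neg_one, one_div]
    rw [hpow] at h3
    refine le_trans ?_ h3
    rw [div_eq_mul_one_div]
    exact mul_le_mul_of_nonneg_right (min_le_right _ _) (by positivity)

end Pool.Agent.Results.MP_6c3d62_pr.PlaneLongCycles
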